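import Pool.Agent.Q41.TM.Main

/-!
# Every hypersurface is tame with respect to `n - 1` minimal generating syzygies

Here `n = k + 1`. For every nonzero homogeneous polynomial `f` of positive degree in
`ℂ[x_0, ..., x_n]` there are a minimal set of generators of the module `D_0(f)` of Jacobian
syzygies and `n - 1 = k` of its elements such that `V : f = 0` is tame with respect to them.
-/

namespace Pool.Agent.Results.MP_0a8f3f_ag.AlwaysTame

open Pool.Agent.Q41.TM

theorem result (k d : ℕ) (hd : 1 ≤ d) (f : MvPolynomial (Fin (k + 2)) ℂ)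
    (hf : f.IsHomogeneous d) (hf0 : f ≠ 0) :
    ∃ (m : ℕ) (r : Fin m → Fin (k + 2) → MvPolynomial (Fin (k + 2)) ℂ), IsMinGens f m r ∧
      ∃ ι : Fin k → Fin m, Function.Injective ι ∧ Tame f (r ∘ ι) :=
  main f hf (by omega) hf0

end Pool.Agent.Results.MP_0a8f3f_ag.AlwaysTame
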